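import Pool.Agent.Helper58.Late.Ri2F

/-!
Numbers of edges of the ER-critical and of the stable graphs for 2-rainbow independent domination.
-/

namespace Pool.Agent.Results.MP_821169_co.EdgeCounts

open Pool.Agent.Helper58.Late.Ri2

/-- `gam G` is the 2-rainbow independent domination number, `SS n k`, `EE n k` and `EI n k` are the sets of the connected
graphs on `Fin n` with `gam G = k` which are stable, resp. ER-critical, resp. for which the deletion of each edge
increases `gam`.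

(1) For `k ≥ 2` there are graphs in `EI n k` if and only if `n ≥ 3` and `n ≥ 2 k - 1`, and each of them has exactly
`2 (n - k)` edges.
(2) For these `n`, `k` the minimum number of edges of a graph in `EE n k` is `2 (n - k)`; every graph of order `n` with
domination number `k ≥ 1` has at least `2 (n - k)` edges.
(3) All graphs in `EE n 2`, `n ≥ 3`, have `2 n - 4` edges. For `n ≥ 3` the maximum number of edges of a graph in `SS n 2`
is `n (n - 1) / 2` and the minimum is `3 n - 7`, but `4` for `n = 4`. For `n ≤ 2` both sets are empty.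
(4) `gam` is attained for every graph. -/
theorem result :
    (∀ n k : ℕ, 2 ≤ k → ((EI n k).Nonempty ↔ 3 ≤ n ∧ 2 * k - 1 ≤ n) ∧
      ∀ G ∈ EI n k, G.edgeSet.ncard = 2 * (n - k)) ∧
    (∀ n k : ℕ, 2 ≤ k → 3 ≤ n → 2 * k - 1 ≤ n →
      IsLeast {m | ∃ G ∈ EE n k, G.edgeSet.ncard = m} (2 * (n - k))) ∧
    (∀ n k : ℕ, 1 ≤ k → ∀ G : SimpleGraph (Fin n), gam G = k → 2 * (n - k) ≤ G.edgeSet.ncard) ∧
    (∀ n : ℕ, 3 ≤ n → {m | ∃ G ∈ EE n 2, G.edgeSet.ncard = m} = {2 * n - 4} ∧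
      IsGreatest {m | ∃ G ∈ SS n 2, G.edgeSet.ncard = m} (n.choose 2) ∧
      IsLeast {m | ∃ G ∈ SS n 2, G.edgeSet.ncard = m} (if n = 4 then 4 else 3 * n - 7)) ∧
    (∀ n : ℕ, n ≤ 2 → SS n 2 = ∅ ∧ EE n 2 = ∅) ∧
    ∀ (V : Type) [Fintype V] [DecidableEq V] (G : SimpleGraph V), ∃ f, IsRi2 G f ∧ weight f = gam G := by
  refine ⟨fun n k hk => ⟨⟨fun ⟨G, hG⟩ => (EI_order hk hG).symm, fun hn => ?_⟩, fun G hG =>
      le_antisymm (EI_le hG.2.1 hG.2.2) (edges_ge (by omega) hG.2.1)⟩, fun n k hk h3 hn => ⟨?_, ?_⟩,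
    fun n k hk G h => edges_ge hk h, fun n hn => ⟨?_, ⟨?_, ?_⟩, ?_, ?_⟩,
    fun n hn => ⟨SS_small hn, EE_small hn⟩, fun V _ _ G => gam_mem G⟩
  · rcases Nat.lt_or_ge 2 k with h | h
    · exact ⟨PP n k, PP_EI h hn.2⟩
    · obtain rfl : k = 2 := by omega
      exact ⟨KK n, KK_EI hn.1⟩
  · rcases Nat.lt_or_ge 2 k with h | h
    · exact ⟨PP n k, PP_mem h hn, le_antisymm (PP_ncard_le hk (by omega)) (edges_ge (by omega) (PP_gam h hn))⟩
    · obtain rfl : k = 2 := by omega
      exact ⟨KK n, KK_mem h3, by rw [EE_ncard h3 (KK_mem h3)]; omega⟩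
  · rintro m ⟨G, hG, rfl⟩
    exact edges_ge (by omega) hG.2.1
  · ext m
    constructor
    · rintro ⟨G, hG, rfl⟩
      exact EE_ncard hn hG
    · rintro rfl
      exact ⟨KK n, KK_mem hn, EE_ncard hn (KK_mem hn)⟩
  · exact ⟨⊤, top_mem hn, ncard_top⟩
  · rintro m ⟨G, hG, rfl⟩
    exact ncard_le G
  · by_cases h4 : n = 4
    · subst h4
      rw [if_pos rfl]
      exact ⟨C4, C4_mem, C4_ncard⟩
    · rw [if_neg h4]
      refine ⟨HH n, HH_mem hn, le_antisymm (HH_ncard hn) ?_⟩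
      rcases lower hn (HH_mem hn) with h | h <;> omega
  · rintro m ⟨G, hG, rfl⟩
    rcases lower hn hG with h | h
    · split_ifs <;> omega
    · split_ifs <;> omega

end Pool.Agent.Results.MP_821169_co.EdgeCounts
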