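import Mathlib

/-!
# The graphs with the least number of edges

The graphs of order `n` with 2-rainbow independent domination number `k` and `2 (n - k)` edges are the graphs which one
gets from a bipartite multigraph with `k` vertices by subdividing every edge once. They are also the graphs in which the
removal of any edge increases the domination number.
-/

set_option autoImplicit false

namespace Pool.Agent.Results.MP_821169_co.ExtremalGraphs

/-- `f` is a 2-rainbow independent dominating function of `G`: `V₁`, `V₂` are independent, and every vertex of `V₀` has a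
neighbour in `V₁` and a neighbour in `V₂`. -/
def IsRiDF {V : Type} (G : SimpleGraph V) (f : V → Fin 3) : Prop :=
  (∀ u v, G.Adj u v → f u = f v → f u = 0) ∧
    ∀ u, f u = 0 → (∃ v, G.Adj u v ∧ f v = 1) ∧ ∃ v, G.Adj u v ∧ f v = 2

/-- The weight of `f`: the number of the vertices with `f v ≠ 0`. -/
noncomputable def weight {V : Type} (f : V → Fin 3) : ℕ := {v | f v ≠ 0}.ncard

/-- The 2-rainbow independent domination number of `G`. -/
noncomputable def gammaRi {V : Type} (G : SimpleGraph V) : ℕ :=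
  sInf {w | ∃ f, IsRiDF G f ∧ weight f = w}

/-- `G` is ER-critical: the removal of any edge changes the domination number. -/
def IsErCritical {V : Type} (G : SimpleGraph V) : Prop :=
  ∀ e ∈ G.edgeSet, gammaRi (G.deleteEdges {e}) ≠ gammaRi G

/-- `f` shows that `G` is the subdivision (every edge is subdivided once) of a bipartite multigraph: the vertices of the
multigraph are those with `f v = 1` and those with `f v = 2` (the two sides), and the other vertices have exactly two
neighbours, one on each side, and are adjacent to nothing else. -/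
def Sub {V : Type} (G : SimpleGraph V) (f : V → Fin 3) : Prop :=
  (∀ u v, G.Adj u v → (f u = 0 ↔ f v ≠ 0)) ∧
    ∀ u, f u = 0 → ∃ a b, f a = 1 ∧ f b = 2 ∧ ∀ v, G.Adj u v ↔ v = a ∨ v = b

/-- `G` is the subdivision of a bipartite multigraph with `k` vertices. -/
def IsSubdivision {V : Type} (G : SimpleGraph V) (k : ℕ) : Prop := ∃ f : V → Fin 3, weight f = k ∧ Sub G f

theorem card_zero {V : Type} [Finite V] (f : V → Fin 3) : Nat.card {u // f u = 0} + weight f = Nat.card V :=
  Set.ncard_add_ncard_compl {u | f u = 0}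

/-- Every graph has at least `2 (n - k)` edges; in the case of equality it is a subdivision. -/
theorem lower {V : Type} [Finite V] (G : SimpleGraph V) (f : V → Fin 3) (hf : IsRiDF G f) :
    2 * (Nat.card V - weight f) ≤ G.edgeSet.ncard ∧
      (G.edgeSet.ncard = 2 * (Nat.card V - weight f) → Sub G f) := by
  classical
  choose a ha using fun u : {u // f u = 0} => (hf.2 u.1 u.2).1
  choose b hb using fun u : {u // f u = 0} => (hf.2 u.1 u.2).2
  let φ : {u // f u = 0} × Bool → G.edgeSet := fun p =>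
    if p.2 then ⟨s(p.1.1, a p.1), (ha p.1).1⟩ else ⟨s(p.1.1, b p.1), (hb p.1).1⟩
  have hφ : Function.Injective φ := by
    rintro ⟨⟨u, hu⟩, s⟩ ⟨⟨v, hv⟩, t⟩ h
    have ha1 := (ha ⟨u, hu⟩).2
    have ha2 := (ha ⟨v, hv⟩).2
    have hb1 := (hb ⟨u, hu⟩).2
    have hb2 := (hb ⟨v, hv⟩).2
    have h' := congrArg Subtype.val h
    cases s <;> cases t <;> rcases Sym2.eq_iff.1 h' with ⟨h1, h2⟩ | ⟨h1, h2⟩ <;> dsimp only at h1 h2
    · subst h1; rfl
    · rw [h1, hb2] at hu; exact absurd hu (by decide)
    · rw [h2, ha2] at hb1; exact absurd hb1 (by decide)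
    · rw [h1, ha2] at hu; exact absurd hu (by decide)
    · rw [h2, hb2] at ha1; exact absurd ha1 (by decide)
    · rw [h1, hb2] at hu; exact absurd hu (by decide)
    · subst h1; rfl
    · rw [h1, ha2] at hu; exact absurd hu (by decide)
  have h1 := Nat.card_le_card_of_injective φ hφ
  have h2 := card_zero f
  have h3 : Nat.card Bool = 2 := by simp
  have h4 : Nat.card ({u // f u = 0} × Bool) = 2 * (Nat.card V - weight f) := by
    rw [Nat.card_prod, h3]
    omega
  rw [h4, Nat.card_coe_set_eq] at h1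
  refine ⟨h1, fun heq => ?_⟩
  have hbij : Function.Bijective φ := by
    have := Fintype.ofFinite V
    have := Fintype.ofFinite ({u // f u = 0} × Bool)
    have := Fintype.ofFinite G.edgeSet
    rw [Fintype.bijective_iff_injective_and_card]
    refine ⟨hφ, ?_⟩
    rw [← Nat.card_eq_fintype_card, ← Nat.card_eq_fintype_card, h4, Nat.card_coe_set_eq, heq]
  have key : ∀ u v, G.Adj u v → ∃ z : {u // f u = 0}, (u = z.1 ∧ (v = a z ∨ v = b z)) ∨ (v = z.1 ∧ (u = a z ∨ u = b z)) := by
    intro u v huv
    obtain ⟨⟨z, t⟩, hz⟩ := hbij.2 ⟨s(u, v), huv⟩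
    have hz' := congrArg Subtype.val hz
    refine ⟨z, ?_⟩
    cases t <;> rcases Sym2.eq_iff.1 hz' with ⟨h1, h2⟩ | ⟨h1, h2⟩
    · exact Or.inl ⟨h1.symm, Or.inr h2.symm⟩
    · exact Or.inr ⟨h1.symm, Or.inr h2.symm⟩
    · exact Or.inl ⟨h1.symm, Or.inl h2.symm⟩
    · exact Or.inr ⟨h1.symm, Or.inl h2.symm⟩
  have hne : ∀ (z : {u // f u = 0}) (v : V), v = a z ∨ v = b z → f v ≠ 0 := by
    rintro z v (rfl | rfl)
    · rw [(ha z).2]; decide
    · rw [(hb z).2]; decide
  refine ⟨fun u v huv => ?_, fun u hu => ⟨a ⟨u, hu⟩, b ⟨u, hu⟩, (ha _).2, (hb _).2, fun v => ⟨fun huv => ?_, ?_⟩⟩⟩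
  · obtain ⟨z, ⟨rfl, h⟩ | ⟨rfl, h⟩⟩ := key u v huv
    · exact ⟨fun _ => hne z v h, fun _ => z.2⟩
    · exact ⟨fun h' => absurd h' (hne z u h), fun h' => absurd z.2 h'⟩
  · obtain ⟨z, ⟨h1, h⟩ | ⟨h1, h⟩⟩ := key u v huv
    · subst h1; exact h
    · exact absurd hu (hne z u h)
  · rintro (rfl | rfl)
    · exact (ha ⟨u, hu⟩).1
    · exact (hb ⟨u, hu⟩).1

section
variable {V : Type} [Finite V] {G : SimpleGraph V} {f : V → Fin 3} (hS : Sub G f)

include hS in
/-- The lower bound for the weight, for subgraphs of a subdivision. -/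
theorem core (G' : SimpleGraph V) (hG : G' ≤ G) (g : V → Fin 3) (hg : IsRiDF G' g) :
    weight f ≤ weight g ∧ ∀ z w, f z = 0 → G.Adj z w → ¬ G'.Adj z w → weight f + 1 ≤ weight g := by
  classical
  have := Fintype.ofFinite V
  obtain ⟨hS1, hS2⟩ := hS
  choose! a b ha hb hab using hS2
  have h1 : ∀ (w : {w : V // f w ≠ 0 ∧ g w = 0}) (t : Bool), ∃ z, G'.Adj w.1 z ∧ g z = if t then 1 else 2 := by
    intro w t
    obtain ⟨⟨v, hv, hv1⟩, ⟨v', hv', hv1'⟩⟩ := hg.2 _ w.2.2
    cases t
    · exact ⟨v', hv', by simpa using hv1'⟩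
    · exact ⟨v, hv, by simpa using hv1⟩
  choose c hc hc' using h1
  have hcz : ∀ w t, f (c w t) = 0 := fun w t => by
    by_contra h
    exact w.2.1 ((hS1 _ _ (hG (hc w t))).2 h)
  have hcw : ∀ w t, w.1 = if f w.1 = 1 then a (c w t) else b (c w t) := fun w t => by
    rcases (hab _ (hcz w t) _).1 (hG (hc w t)).symm with h | h
    · have h5 := ha _ (hcz w t)
      rw [← h] at h5
      rw [if_pos h5]
      exact h
    · have h5 := hb _ (hcz w t)
      rw [← h] at h5
      rw [if_neg (by rw [h5]; decide)]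
      exact h
  let ψ : {w : V // f w ≠ 0 ∧ g w = 0} × Bool → V × Bool := fun p => (c p.1 p.2, decide (f p.1.1 = 1))
  have hψ : Function.Injective ψ := by
    rintro ⟨w, t⟩ ⟨w', t'⟩ h
    have e1 : c w t = c w' t' := congrArg Prod.fst h
    have e2 : decide (f w.1 = 1) = decide (f w'.1 = 1) := congrArg Prod.snd h
    have e3 : f w.1 = 1 ↔ f w'.1 = 1 := by simpa using e2
    have hi : w = w' := by
      apply Subtype.ext
      rw [hcw w t, hcw w' t', e1]
      simp only [e3]
    have hb : t = t' := by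
      have e4 := hc' w t
      rw [e1, hc' w' t'] at e4
      cases t <;> cases t' <;> simp_all
    rw [hi, hb]
  have hmem : ∀ x, ψ x ∈ ((Finset.univ.filter fun v => f v = 0 ∧ g v ≠ 0) ×ˢ (Finset.univ : Finset Bool)) := by
    rintro ⟨w, t⟩
    rw [Finset.mem_product]
    refine ⟨?_, Finset.mem_univ _⟩
    rw [Finset.mem_filter]
    refine ⟨Finset.mem_univ _, hcz w t, ?_⟩
    show g (c w t) ≠ 0
    rw [hc' w t]
    cases t <;> decide
  have hwf : weight f = (Finset.univ.filter fun v => f v ≠ 0 ∧ g v = 0).card + (Finset.univ.filter fun v => f v ≠ 0 ∧ g v ≠ 0).card := by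
    unfold weight
    rw [Set.ncard_eq_toFinset_card', Set.toFinset_ofPred,
      ← Finset.card_filter_add_card_filter_not (s := Finset.univ.filter fun v => f v ≠ 0) (fun v => g v = 0),
      Finset.filter_filter, Finset.filter_filter]
  have hwg : weight g = (Finset.univ.filter fun v => f v = 0 ∧ g v ≠ 0).card + (Finset.univ.filter fun v => f v ≠ 0 ∧ g v ≠ 0).card := by
    unfold weight
    rw [Set.ncard_eq_toFinset_card', Set.toFinset_ofPred,
      ← Finset.card_filter_add_card_filter_not (s := Finset.univ.filter fun v => g v ≠ 0) (fun v => f v = 0),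
      Finset.filter_filter, Finset.filter_filter]
    simp only [and_comm]
  have hcard : (Finset.univ : Finset ({w : V // f w ≠ 0 ∧ g w = 0} × Bool)).card =
      (Finset.univ.filter fun v => f v ≠ 0 ∧ g v = 0).card * 2 := by
    rw [Finset.card_univ, Fintype.card_prod, Fintype.card_bool, Fintype.card_subtype]
  constructor
  · have := Finset.card_le_card_of_injOn ψ (fun x _ => hmem x) hψ.injOn (s := Finset.univ)
    rw [hcard, Finset.card_product, Finset.card_univ, Fintype.card_bool] at this
    omega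
  · intro z w hz h2 h3
    have hj : g z ≠ 0 := by
      intro h0
      obtain ⟨⟨v, hv, hv1⟩, ⟨v', hv', hv1'⟩⟩ := hg.2 _ h0
      have a1 := (hab z hz _).1 (hG hv)
      have a2 := (hab z hz _).1 (hG hv')
      have a3 := (hab z hz _).1 h2
      have n1 : v ≠ w := fun h => h3 (h ▸ hv)
      have n2 : v' ≠ w := fun h => h3 (h ▸ hv')
      have hvw : v = v' := by
        rcases a1 with a1 | a1 <;> rcases a2 with a2 | a2 <;> rcases a3 with a3 | a3
        all_goals first
          | exact a1.trans a2.symm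
          | exact absurd (a1.trans a3.symm) n1
          | exact absurd (a2.trans a3.symm) n2
      rw [hvw, hv1'] at hv1
      exact absurd hv1 (by decide)
    have hnot : ∀ x, ψ x ≠ (z, decide (f w = 1)) := by
      rintro ⟨i, t⟩ h
      have e1 : c i t = z := congrArg Prod.fst h
      have e2 : decide (f i.1 = 1) = decide (f w = 1) := congrArg Prod.snd h
      have e3 : f i.1 = 1 ↔ f w = 1 := by simpa using e2
      have h4 := hc i t
      rw [e1] at h4
      have h5 : i.1 = w := by
        have h6 := hcw i t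
        rw [e1] at h6
        rw [h6]
        rcases (hab z hz _).1 h2 with h7 | h7
        · rw [if_pos (e3.2 (by rw [h7]; exact ha z hz)), h7]
        · rw [if_neg (fun h8 => by
            have h9 := e3.1 h8
            rw [h7, hb z hz] at h9
            exact absurd h9 (by decide)), h7]
      exact h3 (h5 ▸ h4.symm)
    have := Finset.card_le_card_of_injOn ψ (fun x _ => Finset.mem_coe.2 (Finset.mem_erase.2 ⟨hnot x, hmem x⟩)) hψ.injOn
      (s := Finset.univ) (t := ((Finset.univ.filter fun v => f v = 0 ∧ g v ≠ 0) ×ˢ (Finset.univ : Finset Bool)).erase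
        (z, decide (f w = 1)))
    rw [Finset.card_erase_of_mem (by
      rw [Finset.mem_product]
      exact ⟨by rw [Finset.mem_filter]; exact ⟨Finset.mem_univ _, hz, hj⟩, Finset.mem_univ _⟩), hcard, Finset.card_product,
      Finset.card_univ, Fintype.card_bool] at this
    have hpos : 0 < (Finset.univ.filter fun v => f v = 0 ∧ g v ≠ 0).card :=
      Finset.card_pos.2 ⟨z, by rw [Finset.mem_filter]; exact ⟨Finset.mem_univ _, hz, hj⟩⟩
    omega

include hS in
omit [Finite V] in
theorem ri_of_sub : IsRiDF G f := by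
  constructor
  · intro u v huv h
    by_contra h0
    exact h0 ((hS.1 u v huv).2 (h ▸ h0))
  · intro u hu
    obtain ⟨a, b, ha, hb, h⟩ := hS.2 u hu
    exact ⟨⟨a, (h a).2 (Or.inl rfl), ha⟩, ⟨b, (h b).2 (Or.inr rfl), hb⟩⟩

include hS in
theorem gamma_sub : gammaRi G = weight f := by
  apply le_antisymm
  · exact Nat.sInf_le ⟨f, ri_of_sub hS, rfl⟩
  · refine le_csInf ⟨_, f, ri_of_sub hS, rfl⟩ ?_
    rintro w ⟨g, hg, rfl⟩
    exact (core hS _ le_rfl g hg).1

include hS in
/-- A removed edge: the domination number grows. -/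
theorem crit_aux (z w : V) (hz : f z = 0) (hzw : G.Adj z w) : weight f < gammaRi (G.deleteEdges {s(z, w)}) := by
  classical
  have hna : ¬ (G.deleteEdges {s(z, w)}).Adj z w := by
    rw [SimpleGraph.deleteEdges_adj]
    rintro ⟨-, h5⟩
    exact h5 rfl
  refine Nat.lt_of_succ_le (le_csInf ?_ ?_)
  · -- a dominating function of the smaller graph
    refine ⟨_, Function.update f z (f w), ⟨fun u v huv h => ?_, fun u hu => ?_⟩, rfl⟩
    · have hG := SimpleGraph.deleteEdges_le _ huv
      have hne : ∀ v, G.Adj z v → (G.deleteEdges {s(z, w)}).Adj z v → f w ≠ f v := by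
        intro v hv hv' h1
        obtain ⟨a, b, ha, hb, hab⟩ := hS.2 z hz
        rcases (hab w).1 hzw with h2 | h2 <;> rcases (hab v).1 hv with h3 | h3
        · exact hna ((h3.trans h2.symm) ▸ hv')
        · rw [h2, h3, ha, hb] at h1; exact absurd h1 (by decide)
        · rw [h2, h3, ha, hb] at h1; exact absurd h1 (by decide)
        · exact hna ((h3.trans h2.symm) ▸ hv')
      by_cases hu : u = z
      · subst hu
        have hv : v ≠ u := fun h => G.loopless.irrefl u (h ▸ hG)
        rw [Function.update_self, Function.update_of_ne hv] at h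
        exact absurd h (hne v hG huv)
      · by_cases hv : v = z
        · subst hv
          rw [Function.update_self, Function.update_of_ne hu] at h
          exact absurd h.symm (hne u hG.symm huv.symm)
        · rw [Function.update_of_ne hu, Function.update_of_ne hv] at h
          rw [Function.update_of_ne hu]
          by_contra h0
          exact h0 ((hS.1 u v hG).2 (h ▸ h0))
    · have hwz : f w ≠ 0 := fun h => (hS.1 z w hzw).1 hz h
      have huz : u ≠ z := by
        rintro rfl
        rw [Function.update_self] at hu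
        exact hwz hu
      rw [Function.update_of_ne huz] at hu
      have hv : ∀ v, G.Adj u v → f v ≠ 0 → (G.deleteEdges {s(z, w)}).Adj u v ∧ Function.update f z (f w) v = f v := by
        intro v huv hv0
        have hvz : v ≠ z := by rintro rfl; exact hv0 hz
        refine ⟨?_, Function.update_of_ne hvz _ _⟩
        rw [SimpleGraph.deleteEdges_adj]
        refine ⟨huv, fun h => ?_⟩
        rcases Sym2.eq_iff.1 (Set.mem_singleton_iff.1 h) with ⟨h1, -⟩ | ⟨-, h1⟩
        · exact huz h1
        · exact hvz h1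
      obtain ⟨⟨a, ha, ha1⟩, ⟨b, hb, hb1⟩⟩ := (ri_of_sub hS).2 u hu
      have h1 := hv a ha (by rw [ha1]; decide)
      have h2 := hv b hb (by rw [hb1]; decide)
      exact ⟨⟨a, h1.1, h1.2.trans ha1⟩, ⟨b, h2.1, h2.2.trans hb1⟩⟩
  · rintro x ⟨g, hg, rfl⟩
    exact (core hS _ (SimpleGraph.deleteEdges_le _) g hg).2 z w hz hzw hna

include hS in
theorem crit_sub (e : Sym2 V) (he : e ∈ G.edgeSet) : weight f < gammaRi (G.deleteEdges {e}) := by
  induction e using Sym2.ind with
  | _ u v =>
    rw [SimpleGraph.mem_edgeSet] at he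
    by_cases hu : f u = 0
    · exact crit_aux hS u v hu he
    · have hv : f v = 0 := by
        by_contra hv
        exact hu ((hS.1 u v he).2 hv)
      rw [Sym2.eq_swap]
      exact crit_aux hS v u hv he.symm

omit [Finite V] in
/-- If the removal of any edge spoils `f`, then `f` shows that `G` is a subdivision. -/
theorem sub_of_crit (hf : IsRiDF G f) (h : ∀ e ∈ G.edgeSet, ¬ IsRiDF (G.deleteEdges {e}) f) : Sub G f := by
  have key : ∀ u v, G.Adj u v → (f u = 0 ∧ f v ≠ 0 ∧ ∀ w, G.Adj u w → f w = f v → w = v) ∨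
      (f v = 0 ∧ f u ≠ 0 ∧ ∀ w, G.Adj v w → f w = f u → w = u) := by
    intro u v huv
    by_contra hcon
    push Not at hcon
    obtain ⟨h1, h2⟩ := hcon
    refine h s(u, v) huv ⟨fun x y hxy => hf.1 x y (SimpleGraph.deleteEdges_le _ hxy), ?_⟩
    have h3 : ∀ (t : Fin 3), t ≠ 0 → ∀ x, f x = 0 → (∃ y, G.Adj x y ∧ f y = t) →
        ∃ y, (G.deleteEdges {s(u, v)}).Adj x y ∧ f y = t := by
      rintro t ht x hx ⟨y, hxy, hy⟩
      by_cases hs : s(x, y) = s(u, v)
      · rcases Sym2.eq_iff.1 hs with ⟨rfl, rfl⟩ | ⟨rfl, rfl⟩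
        · obtain ⟨w, hw1, hw2, hw3⟩ := h1 hx (by rw [hy]; exact ht)
          refine ⟨w, ?_, hw2.trans hy⟩
          rw [SimpleGraph.deleteEdges_adj]
          refine ⟨hw1, fun h4 => ?_⟩
          rcases Sym2.eq_iff.1 (Set.mem_singleton_iff.1 h4) with ⟨-, h5⟩ | ⟨h5, h6⟩
          · exact hw3 h5
          · exact hw3 (h6.trans h5)
        · obtain ⟨w, hw1, hw2, hw3⟩ := h2 hx (by rw [hy]; exact ht)
          refine ⟨w, ?_, hw2.trans hy⟩
          rw [SimpleGraph.deleteEdges_adj]
          refine ⟨hw1, fun h4 => ?_⟩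
          rcases Sym2.eq_iff.1 (Set.mem_singleton_iff.1 h4) with ⟨h5, h6⟩ | ⟨-, h5⟩
          · exact hw3 (h6.trans h5)
          · exact hw3 h5
      · exact ⟨y, by rw [SimpleGraph.deleteEdges_adj]; exact ⟨hxy, fun h4 => hs (Set.mem_singleton_iff.1 h4)⟩, hy⟩
    exact fun x hx => ⟨h3 1 (by decide) x hx (hf.2 x hx).1, h3 2 (by decide) x hx (hf.2 x hx).2⟩
  refine ⟨fun u v huv => ?_, fun u hu => ?_⟩
  · rcases key u v huv with ⟨h1, h2, -⟩ | ⟨h1, h2, -⟩
    · exact ⟨fun _ => h2, fun _ => h1⟩
    · exact ⟨fun h' => absurd h' h2, fun h' => absurd h1 h'⟩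
  · obtain ⟨⟨a, ha, ha1⟩, ⟨b, hb, hb1⟩⟩ := hf.2 u hu
    refine ⟨a, b, ha1, hb1, fun v => ⟨fun huv => ?_, ?_⟩⟩
    · rcases key u v huv with ⟨-, h2, h3⟩ | ⟨-, h2, -⟩
      · have h4 : f v = 1 ∨ f v = 2 := by
          revert h2
          generalize f v = t
          revert t
          decide
        rcases h4 with h4 | h4
        · exact Or.inl (h3 a ha (ha1.trans h4.symm)).symm
        · exact Or.inr (h3 b hb (hb1.trans h4.symm)).symm
      · exact absurd hu h2
    · rintro (rfl | rfl)
      · exact ha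
      · exact hb

include hS in
theorem edges_sub : G.edgeSet.ncard = 2 * (Nat.card V - weight f) := by
  classical
  apply le_antisymm
  · have hS2 := hS.2
    choose! a b ha hb hab using hS2
    let φ : {u // f u = 0} × Bool → Sym2 V := fun p => s(p.1.1, if p.2 then a p.1.1 else b p.1.1)
    have hsub : G.edgeSet ⊆ φ '' Set.univ := by
      have h1 : ∀ u v, f u = 0 → G.Adj u v → ∃ p, φ p = s(u, v) := by
        intro u v hu huv
        rcases (hab u hu v).1 huv with h | h
        · exact ⟨(⟨u, hu⟩, true), by simp [φ, h]⟩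
        · exact ⟨(⟨u, hu⟩, false), by simp [φ, h]⟩
      intro e he
      induction e using Sym2.ind with
      | _ u v =>
        rw [SimpleGraph.mem_edgeSet] at he
        by_cases hu : f u = 0
        · obtain ⟨p, hp⟩ := h1 u v hu he
          exact ⟨p, Set.mem_univ _, hp⟩
        · have hv : f v = 0 := by
            by_contra hv
            exact hu ((hS.1 u v he).2 hv)
          obtain ⟨p, hp⟩ := h1 v u hv he.symm
          exact ⟨p, Set.mem_univ _, hp.trans Sym2.eq_swap⟩
    have h1 := Set.ncard_le_ncard hsub (Set.toFinite _)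
    have h2 := Set.ncard_image_le (f := φ) (Set.finite_univ)
    rw [Set.ncard_univ, Nat.card_prod] at h2
    have h3 : Nat.card Bool = 2 := by simp
    have h4 := card_zero f
    rw [h3] at h2
    omega
  · exact (lower G f (ri_of_sub hS)).1

end

/-- Let `k ≥ 1`, and let `G` be a finite graph with `n` vertices. The following are equivalent: (a) `gammaRi G = k` and `G`
has `2 (n - k)` edges; (b) `gammaRi G = k` and the removal of any edge increases the domination number; (c) `G` is the
subdivision of a bipartite multigraph with `k` vertices. These graphs are ER-critical. -/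
theorem result (V : Type) [Finite V] (G : SimpleGraph V) (k : ℕ) (hk : 1 ≤ k) :
    ((gammaRi G = k ∧ G.edgeSet.ncard = 2 * (Nat.card V - k)) ↔ IsSubdivision G k) ∧
    ((gammaRi G = k ∧ ∀ e ∈ G.edgeSet, k < gammaRi (G.deleteEdges {e})) ↔ IsSubdivision G k) ∧
    (IsSubdivision G k → IsErCritical G) := by
  have h0 : gammaRi G = k → ∃ f, IsRiDF G f ∧ weight f = k := by
    intro hG
    have hpos : 0 < gammaRi G := by omega
    obtain ⟨f, hf, hw⟩ := Nat.sInf_mem (Nat.nonempty_of_pos_sInf hpos)
    exact ⟨f, hf, hw.trans hG⟩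
  have h1 : IsSubdivision G k → (gammaRi G = k ∧ G.edgeSet.ncard = 2 * (Nat.card V - k)) ∧
      ∀ e ∈ G.edgeSet, k < gammaRi (G.deleteEdges {e}) := by
    rintro ⟨f, hw, hf⟩
    subst hw
    exact ⟨⟨gamma_sub hf, edges_sub hf⟩, crit_sub hf⟩
  refine ⟨⟨?_, fun h => (h1 h).1⟩, ⟨?_, fun h => ⟨(h1 h).1.1, (h1 h).2⟩⟩, fun h e he => ?_⟩
  · rintro ⟨h2, h3⟩
    obtain ⟨f, hf, hw⟩ := h0 h2
    exact ⟨f, hw, (lower G f hf).2 (by rw [hw]; exact h3)⟩
  · rintro ⟨h2, h3⟩
    obtain ⟨f, hf, hw⟩ := h0 h2
    refine ⟨f, hw, sub_of_crit hf fun e he hf' => ?_⟩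
    have h4 : gammaRi (G.deleteEdges {e}) ≤ k := Nat.sInf_le ⟨f, hf', hw⟩
    have := h3 e he
    omega
  · have h2 := (h1 h).2 e he
    have h3 := (h1 h).1.1
    omega

end Pool.Agent.Results.MP_821169_co.ExtremalGraphs
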